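import Pool.Agent.W774.TL.Final

set_option autoImplicit false

/-!
# A Tonelli Lagrangian on the torus all of whose potential perturbations have escaping orbits

For every `n` there is a `C^∞` time-periodic Tonelli Lagrangian `L` on `T 𝕋^n × 𝕋` such that for
EVERY potential `f ∈ C^2(𝕋^n × 𝕋)` (of any size) the Euler-Lagrange flow of `L + f` has an open set
of orbits which tend to infinity.  So for this `L` the residual set `O(L)` of Arnold's question is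
the whole space `C^k(𝕋^n × 𝕋)`, for every `k ≥ 2`.

The Lagrangian is `L(x,v,t) = Σ_i l(x_i, v_i, t)`, `l` being the Legendre dual of
`h(x,p,t) = log Σ_{j ∈ ℤ} exp (j p - 3^|j| (3/4 + sin (2π(x - j t)) / 2π))`.
-/

namespace Pool.Agent.Results.MP_6acca1_an.StableAccelerator

open Set Filter Topology

/-- `f(x,t)` is `ℤ^n × ℤ`-periodic: a function on `𝕋^n × 𝕋`. -/
def Periodic {n : ℕ} (f : (Fin n → ℝ) → ℝ → ℝ) : Prop :=
  ∀ (x : Fin n → ℝ) (t : ℝ) (k : Fin n → ℤ) (l : ℤ), f (fun i => x i + k i) (t + l) = f x t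

/-- `L(x,v,t)` is `ℤ^n × ℤ`-periodic in `(x,t)`: a function on `T 𝕋^n × 𝕋`. -/
def PeriodicL {n : ℕ} (L : (Fin n → ℝ) → (Fin n → ℝ) → ℝ → ℝ) : Prop :=
  ∀ (x v : Fin n → ℝ) (t : ℝ) (k : Fin n → ℤ) (l : ℤ),
    L (fun i => x i + k i) v (t + l) = L x v t

/-- The partial derivative `∂L/∂v_i`. -/
noncomputable def dv {n : ℕ} (L : (Fin n → ℝ) → (Fin n → ℝ) → ℝ → ℝ) (i : Fin n)
    (x v : Fin n → ℝ) (t : ℝ) : ℝ := deriv (fun s => L x (Function.update v i s) t) (v i)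

/-- The partial derivative `∂L/∂x_i`. -/
noncomputable def dx {n : ℕ} (L : (Fin n → ℝ) → (Fin n → ℝ) → ℝ → ℝ) (i : Fin n)
    (x v : Fin n → ℝ) (t : ℝ) : ℝ := deriv (fun s => L (Function.update x i s) v t) (x i)

/-- `γ : ℝ → ℝ^n` is a solution, defined for all times, of the Euler-Lagrange equations
`d/dt ∂L/∂v_i (γ, γ', t) = ∂L/∂x_i (γ, γ', t)`. -/
def IsOrbit {n : ℕ} (L : (Fin n → ℝ) → (Fin n → ℝ) → ℝ → ℝ) (γ : ℝ → (Fin n → ℝ)) : Prop :=
  (∀ t, DifferentiableAt ℝ γ t) ∧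
  ∀ (t : ℝ) (i : Fin n), HasDerivAt (fun s => dv L i (γ s) (deriv γ s) s)
    (dx L i (γ t) (deriv γ t) t) t

/-- Every initial condition has a solution defined for all times. -/
def Complete {n : ℕ} (L : (Fin n → ℝ) → (Fin n → ℝ) → ℝ → ℝ) : Prop :=
  ∀ (t₀ : ℝ) (x₀ v₀ : Fin n → ℝ),
    ∃ γ : ℝ → (Fin n → ℝ), IsOrbit L γ ∧ γ t₀ = x₀ ∧ deriv γ t₀ = v₀

/-- `C^∞` Tonelli Lagrangians on `T 𝕋^n × 𝕋`. -/
def SmoothTonelli {n : ℕ} (L : (Fin n → ℝ) → (Fin n → ℝ) → ℝ → ℝ) : Prop :=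
  ContDiff ℝ (⊤ : ℕ∞) (fun q : (Fin n → ℝ) × (Fin n → ℝ) × ℝ => L q.1 q.2.1 q.2.2) ∧
  PeriodicL L ∧
  (∀ (x v : Fin n → ℝ) (t : ℝ) (w : Fin n → ℝ), w ≠ 0 →
    0 < deriv (deriv (fun s : ℝ => L x (v + s • w) t)) 0) ∧
  (∀ K : ℝ, ∃ B : ℝ, ∀ (x v : Fin n → ℝ) (t : ℝ), K * ‖v‖ - B ≤ L x v t) ∧
  Complete L

/-- For every `n` there is a `C^∞` Tonelli Lagrangian `L` on `T 𝕋^n × 𝕋` such that for every
potential `f ∈ C^2(𝕋^n × 𝕋)` the flow of `L + f` is complete and there are a time `t₀` and a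
nonempty open set `U` of positions and velocities such that along every orbit of `L + f` which is in
`U` at time `t₀` every component of the velocity is at least `t - 5/2` for all `t ≥ t₀`; in
particular it tends to `+∞`. -/
theorem result (n : ℕ) :
    ∃ L : (Fin n → ℝ) → (Fin n → ℝ) → ℝ → ℝ, SmoothTonelli L ∧
      ∀ f : (Fin n → ℝ) → ℝ → ℝ,
        ContDiff ℝ 2 (fun q : (Fin n → ℝ) × ℝ => f q.1 q.2) → Periodic f →
        Complete (fun x v t => L x v t + f x t) ∧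
        ∃ (t₀ : ℝ) (U : Set ((Fin n → ℝ) × (Fin n → ℝ))), IsOpen U ∧ U.Nonempty ∧
          ∀ γ : ℝ → (Fin n → ℝ), IsOrbit (fun x v t => L x v t + f x t) γ →
            (γ t₀, deriv γ t₀) ∈ U →
            ∀ (i : Fin n) (t : ℝ), t₀ ≤ t → t - 5 / 2 ≤ deriv γ t i :=
  Pool.Agent.W774.TL.main n

end Pool.Agent.Results.MP_6acca1_an.StableAccelerator
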